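import Pool.Agent.helper63.TI.SpecG

/-!
# Project ti (MP_3703a7_ag), row GNK: small subgroups
-/

set_option autoImplicit false

namespace Pool.Agent.TI

open Polynomial NumberField Pool.Agent.GJ Pool.Agent.TK Pool.Agent.TQ Pool.Agent.TFQ Pool.Agent.TD
open Pool.Agent.FJ (VT Om chiO IsFrobO rf rs)

noncomputable section

/-- `g = 1` modulo `q^K` on the Tate module -/
def GNK_C (l n q K : ℕ) [Fact l.Prime] [Fact q.Prime] (μ : Fin (n + 1) → ℕ) (a : Fin (n + 1) → Om)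
    [Good Om l μ a] (g : Om ≃+* Om) : Prop :=
  ∀ (h : ∀ j, g (a j) = a j) (f : VT q (JC Om l μ a)), (∀ z : ℤ_[q], f.val (z : ℚ_[q]) = 0) →
      ∃ f' : VT q (JC Om l μ a), (∀ z : ℤ_[q], f'.val (z : ℚ_[q]) = 0) ∧
        VT.map q (actA g h (1 : rootsOfUnity l Om)) f - f = (q : ℚ_[q]) ^ K • f'

section one
variable (l n q K : ℕ) [Fact l.Prime] [Fact q.Prime] (μ : Fin (n + 1) → ℕ) (a : Fin (n + 1) → Om)
  [Good Om l μ a]

theorem GNK_id (hNBK : NBK_stmt) (hDD : GJ.DD_stmt) (x : Om ≃+* Om) (hx : x = 1) (h : ∀ j, x (a j) = a j) :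
    (VT.map q (actA x h (1 : rootsOfUnity l Om)) : Module.End ℚ_[q] (VT q (JC Om l μ a))) = 1 := by
  haveI hl0 : NeZero (l : Om) := ⟨by exact_mod_cast (Fact.out (p := l.Prime)).ne_zero⟩
  haveI := hDD Om l n μ a
  subst hx
  exact (hNBK Om l n q μ a).2.1 h

theorem GNK_mulE (hNBK : NBK_stmt) (hDD : GJ.DD_stmt) (g g' : Om ≃+* Om) (hg : ∀ j, g (a j) = a j)
    (hg' : ∀ j, g' (a j) = a j) (x : Om ≃+* Om) (e : x = g * g') (h : ∀ j, x (a j) = a j) (f : VT q (JC Om l μ a)) :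
    VT.map q (actA x h (1 : rootsOfUnity l Om)) f =
      VT.map q (actA g hg (1 : rootsOfUnity l Om)) (VT.map q (actA g' hg' (1 : rootsOfUnity l Om)) f) := by
  haveI hl0 : NeZero (l : Om) := ⟨by exact_mod_cast (Fact.out (p := l.Prime)).ne_zero⟩
  haveI := hDD Om l n μ a
  subst e
  exact congrArg (fun F : Module.End ℚ_[q] (VT q (JC Om l μ a)) => F f) ((hNBK Om l n q μ a).1 g g' hg hg' h)

theorem GNK_st (hNBK : NBK_stmt) (hDD : GJ.DD_stmt) (g : Om ≃+* Om) (hg : ∀ j, g (a j) = a j)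
    (f : VT q (JC Om l μ a)) (hf : ∀ z : ℤ_[q], f.val (z : ℚ_[q]) = 0) (z : ℤ_[q]) :
    (VT.map q (actA g hg (1 : rootsOfUnity l Om)) f).val (z : ℚ_[q]) = 0 := by
  haveI hl0 : NeZero (l : Om) := ⟨by exact_mod_cast (Fact.out (p := l.Prime)).ne_zero⟩
  haveI := hDD Om l n μ a
  exact ((hNBK Om l n q μ a).2.2.2.2.2 g hg 1 f hf).1 z

theorem GNK_inv' (hNBK : NBK_stmt) (hDD : GJ.DD_stmt) (g g' : Om ≃+* Om) (e : g * g' = 1) (hg : ∀ j, g (a j) = a j)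
    (hg' : ∀ j, g' (a j) = a j) (f : VT q (JC Om l μ a)) :
    VT.map q (actA g hg (1 : rootsOfUnity l Om)) (VT.map q (actA g' hg' (1 : rootsOfUnity l Om)) f) = f := by
  have h : ∀ j, (g * g') (a j) = a j := fun j => by
    rw [e]
    rfl
  rw [← GNK_mulE l n q μ a hNBK hDD g g' hg hg' (g * g') rfl h f, GNK_id l n q μ a hNBK hDD (g * g') e h]
  rfl

theorem GNK_one (hNBK : NBK_stmt) (hDD : GJ.DD_stmt) : GNK_C l n q K μ a 1 := by
  intro h f hf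
  refine ⟨0, fun z => rfl, ?_⟩
  rw [GNK_id l n q μ a hNBK hDD 1 rfl h, smul_zero]
  exact sub_self f

theorem GNK_mul (hNBK : NBK_stmt) (hDD : GJ.DD_stmt) (g g' : Om ≃+* Om) (hg : ∀ j, g (a j) = a j)
    (hg' : ∀ j, g' (a j) = a j) (h1 : GNK_C l n q K μ a g) (h2 : GNK_C l n q K μ a g') :
    GNK_C l n q K μ a (g * g') := by
  intro h f hf
  obtain ⟨f1, hf1, e1⟩ := h2 hg' f hf
  obtain ⟨f2, hf2, e2⟩ := h1 hg f hf
  refine ⟨VT.map q (actA g hg (1 : rootsOfUnity l Om)) f1 + f2, fun z => ?_, ?_⟩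
  · rw [FJ.VT.add_val, GNK_st l n q μ a hNBK hDD g hg f1 hf1 z, hf2 z, add_zero]
  · rw [GNK_mulE l n q μ a hNBK hDD g g' hg hg' (g * g') rfl h f, smul_add, ← map_smul, ← e1, ← e2, map_sub]
    abel

theorem GNK_inv (hNBK : NBK_stmt) (hDD : GJ.DD_stmt) (g g' : Om ≃+* Om) (e : g' * g = 1) (hg : ∀ j, g (a j) = a j)
    (hg' : ∀ j, g' (a j) = a j) (h1 : GNK_C l n q K μ a g) : GNK_C l n q K μ a g' := by
  intro h f hf
  obtain ⟨f1, hf1, e1⟩ := h1 hg f hf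
  refine ⟨-(VT.map q (actA g' hg' (1 : rootsOfUnity l Om)) f1), fun z => ?_, ?_⟩
  · rw [FJ.VT.neg_val, GNK_st l n q μ a hNBK hDD g' hg' f1 hf1 z, neg_zero]
  · rw [smul_neg, ← map_smul, ← e1, map_sub, GNK_inv' l n q μ a hNBK hDD g' g e hg' hg f]
    abel

theorem GNK_conj (hNBK : NBK_stmt) (hDD : GJ.DD_stmt) (g g' x : Om ≃+* Om) (e : g * g' = 1)
    (hg : ∀ j, g (a j) = a j) (hg' : ∀ j, g' (a j) = a j) (hx : ∀ j, x (a j) = a j) (h1 : GNK_C l n q K μ a x) :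
    GNK_C l n q K μ a (g * x * g') := by
  intro h f hf
  have hgx : ∀ j, (g * x) (a j) = a j := fun j => by
    change g (x (a j)) = a j
    rw [hx, hg]
  obtain ⟨f1, hf1, e1⟩ := h1 hx (VT.map q (actA g' hg' (1 : rootsOfUnity l Om)) f)
    (GNK_st l n q μ a hNBK hDD g' hg' f hf)
  refine ⟨VT.map q (actA g hg (1 : rootsOfUnity l Om)) f1, GNK_st l n q μ a hNBK hDD g hg f1 hf1, ?_⟩
  rw [GNK_mulE l n q μ a hNBK hDD (g * x) g' hgx hg' (g * x * g') rfl h f,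
    GNK_mulE l n q μ a hNBK hDD g x hg hx (g * x) rfl hgx _, ← map_smul, ← e1, map_sub,
    GNK_inv' l n q μ a hNBK hDD g g' e hg hg' f]

theorem GNK_S (hNC2 : NC2_stmt) (hVF : VF_stmt) (hDD : GJ.DD_stmt) (hl : l ≠ 2) (hn : 0 < n) :
    ∃ S : Finset Om, ∀ σ : Om ≃+* Om, (∀ x ∈ S, σ x = x) → GNK_C l n q K μ a σ := by
  classical
  haveI hl0 : NeZero (l : Om) := ⟨by exact_mod_cast (Fact.out (p := l.Prime)).ne_zero⟩
  haveI := hDD Om l n μ a
  haveI hcount : Countable Om := by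
    rw [← Cardinal.mk_le_aleph0_iff]
    have h : Algebra.IsAlgebraic ℚ (AlgebraicClosure ℚ) := AlgebraicClosure.isAlgebraic ℚ
    refine (Algebra.IsAlgebraic.cardinalMk_le_max ℚ (AlgebraicClosure ℚ)).trans ?_
    simp
  obtain ⟨ζ, hζ⟩ := HasEnoughRootsOfUnity.exists_primitiveRoot Om l
  have : Algebra.IsAlgebraic ℚ Om := AlgebraicClosure.isAlgebraic ℚ
  let ι : Om →+* ℂ := (IsAlgClosed.lift : Om →ₐ[ℚ] ℂ).toRingHom
  obtain ⟨v, bb, _⟩ := hVF Om ι l n q hl hn μ a hζ.toRootsOfUnity hζ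
  haveI : FiniteDimensional ℚ_[q] (VT q (JC Om l μ a)) := Module.Finite.of_basis bb
  obtain ⟨L', hL', hL⟩ := hNC2 l q n μ a K
  haveI := hL'
  refine ⟨Finset.univ.image fun i => ((Module.finBasis ℚ L' i : L') : Om), fun σ hσ h f hf => ?_⟩
  refine hL σ h (fun x hx => ?_) f hf
  have h1 := congrArg (fun y : L' => (y : Om)) ((Module.finBasis ℚ L').sum_repr ⟨x, hx⟩)
  have h2 : x = ∑ i, ((Module.finBasis ℚ L').repr ⟨x, hx⟩ i) • ((Module.finBasis ℚ L' i : L') : Om) := by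
    refine h1.symm.trans ?_
    change L'.val (∑ i, ((Module.finBasis ℚ L').repr ⟨x, hx⟩ i) • Module.finBasis ℚ L' i) = _
    rw [map_sum]
    exact Finset.sum_congr rfl fun i _ => rfl
  rw [h2, map_sum]
  refine Finset.sum_congr rfl fun i _ => ?_
  rw [map_rat_smul, hσ _ (Finset.mem_image_of_mem _ (Finset.mem_univ i))]

end one

theorem GNK_chi (q K : ℕ) [Fact q.Prime] (g : Om ≃+* Om) (h : ∀ x : Om, x ^ (q ^ K) = 1 → g x = x) :
    ‖chiO q g - 1‖ ≤ ‖(q : ℚ_[q]) ^ K‖ := by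
  have h1 : PadicInt.toZModPow K ((cyclotomicCharacter Om q g : ℤ_[q]ˣ) : ℤ_[q]) = ((1 : ℕ) : ZMod (q ^ K)) := by
    rw [cyclotomicCharacter.toZModPow]
    symm
    apply modularCyclotomicCharacter.unique
    intro t ht
    have ht1 : (t : Om) ^ (q ^ K) = 1 := by
      have := (mem_rootsOfUnity _ _).1 ht
      rw [← Units.val_pow_eq_pow_val, this, Units.val_one]
    have h4 := h (t : Om) ht1
    rw [ZMod.val_natCast]
    have h5 : (t : Om) ^ 1 = (t : Om) ^ (1 % q ^ K) := pow_eq_pow_mod _ ht1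
    rw [← h5, pow_one]
    exact h4
  have h2 : ((cyclotomicCharacter Om q g : ℤ_[q]ˣ) : ℤ_[q]) - 1 ∈ RingHom.ker (PadicInt.toZModPow K : ℤ_[q] →+* ZMod (q ^ K)) := by
    rw [RingHom.mem_ker, map_sub, h1, map_one, Nat.cast_one, sub_self]
  rw [PadicInt.ker_toZModPow] at h2
  obtain ⟨c, hc⟩ := Ideal.mem_span_singleton'.1 h2
  have h3 : chiO q g - 1 = (c : ℚ_[q]) * (q : ℚ_[q]) ^ K := by
    have h4 := congrArg (fun z : ℤ_[q] => (z : ℚ_[q])) hc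
    push_cast at h4
    exact h4.symm
  rw [h3, norm_mul]
  exact mul_le_of_le_one_left (norm_nonneg _) c.2

theorem GNK (hNBK : NBK_stmt) (hNC2 : NC2_stmt) (hVF : VF_stmt) (hDD : GJ.DD_stmt) : GNK_stmt := by
  classical
  intro l n q _ _ hl hn μ a _ S0 hS0 hSl K
  have hfx : ∀ g ∈ Fx S0, ∀ j, g (a j) = a j := fun g hg j => hg _ (hS0 j)
  have hinv : ∀ g : Om ≃+* Om, g * g⁻¹ = 1 := fun g => mul_inv_cancel g
  have hinv' : ∀ g : Om ≃+* Om, g⁻¹ * g = 1 := fun g => inv_mul_cancel g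
  obtain ⟨S, hS⟩ := GNK_S l n q K μ a hNC2 hVF hDD hl hn
  have hJ : ∀ b k : ℕ, ∃ S : Finset Om, ∀ (_ : Good Om l (muJ l b k) aJ) (σ : Om ≃+* Om), (∀ x ∈ S, σ x = x) →
      GNK_C l 1 q K (muJ l b k) aJ σ := by
    intro b k
    by_cases hG : Good Om l (muJ l b k) aJ
    · obtain ⟨S, hS⟩ := GNK_S l 1 q K (muJ l b k) aJ hNC2 hVF hDD hl one_pos
      exact ⟨S, fun _ σ hσ => hS σ hσ⟩
    · exact ⟨∅, fun h => absurd h hG⟩
  choose SJ hSJ using hJ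
  let N : Subgroup (Om ≃+* Om) :=
    { carrier := {g | g ∈ Fx S0 ∧ (∀ x : Om, x ^ (q ^ K) = 1 → g x = x) ∧ GNK_C l n q K μ a g ∧
        ∀ b k, 0 < b → b < l → 0 < k → k + 1 < l → ∀ _ : Good Om l (muJ l b k) aJ,
          GNK_C l 1 q K (muJ l b k) aJ g}
      one_mem' := ⟨one_mem _, fun _ _ => rfl, GNK_one l n q K μ a hNBK hDD,
        fun b k _ _ _ _ _ => GNK_one l 1 q K (muJ l b k) aJ hNBK hDD⟩
      mul_mem' := by
        rintro g g' ⟨h1, h2, h3, h4⟩ ⟨h1', h2', h3', h4'⟩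
        refine ⟨mul_mem h1 h1', fun x hx => ?_, GNK_mul l n q K μ a hNBK hDD g g' (hfx g h1) (hfx g' h1') h3 h3',
          fun b k hb hbl hk hkl hG => GNK_mul l 1 q K (muJ l b k) aJ hNBK hDD g g' (fixJ g) (fixJ g')
            (h4 b k hb hbl hk hkl hG) (h4' b k hb hbl hk hkl hG)⟩
        change g (g' x) = x
        rw [h2' x hx, h2 x hx]
      inv_mem' := by
        rintro g ⟨h1, h2, h3, h4⟩
        refine ⟨inv_mem h1, fun x hx => ?_, GNK_inv l n q K μ a hNBK hDD g g⁻¹ (hinv' g) (hfx g h1)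
          (hfx g⁻¹ (inv_mem h1)) h3,
          fun b k hb hbl hk hkl hG => GNK_inv l 1 q K (muJ l b k) aJ hNBK hDD g g⁻¹ (hinv' g) (fixJ g) (fixJ g⁻¹)
            (h4 b k hb hbl hk hkl hG)⟩
        change g.symm x = x
        rw [RingEquiv.symm_apply_eq, h2 x hx] }
  have hN : ∀ g, g ∈ N ↔ g ∈ Fx S0 ∧ (∀ x : Om, x ^ (q ^ K) = 1 → g x = x) ∧ GNK_C l n q K μ a g ∧
        ∀ b k, 0 < b → b < l → 0 < k → k + 1 < l → ∀ _ : Good Om l (muJ l b k) aJ,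
          GNK_C l 1 q K (muJ l b k) aJ g := fun g => Iff.rfl
  have hqK : 0 < q ^ K := pow_pos (Fact.out : q.Prime).pos K
  refine ⟨N, S0 ∪ nthRootsFinset (q ^ K) (1 : Om) ∪ S ∪
    (Finset.range l ×ˢ Finset.range l).biUnion fun p => SJ p.1 p.2, fun g hg => ((hN g).1 hg).1, ?_, ?_, ?_⟩
  · intro g hg x hx
    obtain ⟨h1, h2, h3, h4⟩ := (hN x).1 hx
    refine (hN _).2 ⟨mul_mem (mul_mem hg h1) (inv_mem hg), fun y hy => ?_,
      GNK_conj l n q K μ a hNBK hDD g g⁻¹ x (hinv g) (hfx g hg) (hfx g⁻¹ (inv_mem hg)) (hfx x h1) h3,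
      fun b k hb hbl hk hkl hG => GNK_conj l 1 q K (muJ l b k) aJ hNBK hDD g g⁻¹ x (hinv g) (fixJ g) (fixJ g⁻¹)
        (fixJ x) (h4 b k hb hbl hk hkl hG)⟩
    change g (x (g.symm y)) = y
    rw [h2 (g.symm y) (by rw [← map_pow, hy, map_one]), RingEquiv.apply_symm_apply]
  · intro g hg
    have hg' : ∀ x ∈ S0 ∪ nthRootsFinset (q ^ K) (1 : Om) ∪ S ∪
        (Finset.range l ×ˢ Finset.range l).biUnion fun p => SJ p.1 p.2, g x = x := hg
    simp only [Finset.mem_union, Finset.mem_biUnion, Finset.mem_product, Finset.mem_range] at hg'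
    refine (hN g).2 ⟨fun x hx => hg' x (Or.inl (Or.inl (Or.inl hx))), fun x hx => hg' x (Or.inl (Or.inl (Or.inr ?_))),
      hS g fun x hx => hg' x (Or.inl (Or.inr hx)), fun b k hb hbl hk hkl hG => hSJ b k hG g fun x hx =>
        hg' x (Or.inr ⟨(b, k), ⟨hbl, by omega⟩, hx⟩)⟩
    exact (mem_nthRootsFinset hqK 1).2 hx
  · intro g hg
    obtain ⟨h1, h2, h3, h4⟩ := (hN g).1 hg
    exact ⟨GNK_chi q K g h2, fun h f hf => h3 h f hf, fun b k hb hbl hk hkl hG f hf =>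
      h4 b k hb hbl hk hkl hG (fixJ g) f hf⟩

end

end Pool.Agent.TI
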