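import Pool.Agent.helper63.TI.SpecG

/-!
# Project ti (MP_3703a7_ag), row GC: continuity of the determinant
-/

set_option autoImplicit false

namespace Pool.Agent.TI

open Polynomial NumberField Pool.Agent.GJ Pool.Agent.TK Pool.Agent.TQ Pool.Agent.TFQ Pool.Agent.TD
open Pool.Agent.FJ (VT Om chiO IsFrobO rf rs)

noncomputable section

/-- the ring generated over `ℤ_q` by `ζ` -/
abbrev GC_R (q l : ℕ) [Fact q.Prime] : Subalgebra ℤ_[q] (Fl q l) :=
  Algebra.adjoin ℤ_[q] {AdjoinRoot.root (cyclotomic l ℚ_[q])}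

section ring
variable {q l : ℕ} [Fact q.Prime] [Fact l.Prime]

theorem GC_int : IsIntegral ℤ_[q] (AdjoinRoot.root (cyclotomic l ℚ_[q])) := by
  refine ⟨cyclotomic l ℤ_[q], cyclotomic.monic _ _, ?_⟩
  have h1 : (cyclotomic l ℤ_[q]).map (algebraMap ℤ_[q] ℚ_[q]) = cyclotomic l ℚ_[q] := map_cyclotomic _ _
  have h2 := AdjoinRoot.eval₂_root (cyclotomic l ℚ_[q])
  have h3 : (algebraMap ℤ_[q] (Fl q l)) = (AdjoinRoot.of (cyclotomic l ℚ_[q])).comp (algebraMap ℤ_[q] ℚ_[q]) := rfl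
  rw [h3, ← eval₂_map, h1]
  exact h2

theorem GC_fin : Module.Finite ℤ_[q] (GC_R q l) := by
  have h1 := (GC_int (q := q) (l := l)).fg_adjoin_singleton
  exact Module.Finite.iff_fg.2 h1

/-- `1 + q b` is invertible in the ring -/
theorem GC_inv (b : GC_R q l) : ∃ c : GC_R q l, (1 + (q : ℤ_[q]) • b) * c = 1 := by
  haveI := GC_fin (q := q) (l := l)
  set u : GC_R q l := 1 + (q : ℤ_[q]) • b with hu
  have h1 : (⊤ : Submodule ℤ_[q] (GC_R q l)) ≤ LinearMap.range (LinearMap.mulLeft ℤ_[q] u) := by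
    refine Submodule.le_of_le_smul_of_le_jacobson_bot (I := Ideal.span {(q : ℤ_[q])}) Module.Finite.fg_top ?_ ?_
    · rw [IsLocalRing.jacobson_eq_maximalIdeal ⊥ bot_ne_top]
      rw [Ideal.span_singleton_le_iff_mem]
      exact PadicInt.prime_p.not_isUnit
    · intro x _
      have e : x = u * x + -((q : ℤ_[q]) • (b * x)) := by
        rw [hu, add_mul, one_mul, smul_mul_assoc]
        abel
      rw [e]
      refine Submodule.add_mem_sup ⟨x, rfl⟩ (neg_mem ?_)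
      exact Submodule.smul_mem_smul (Ideal.mem_span_singleton_self _) Submodule.mem_top
  obtain ⟨c, hc⟩ := h1 (x := 1) Submodule.mem_top
  exact ⟨c, hc⟩

theorem GC_zero (x : GC_R q l) (hx : ∀ k : ℕ, ∃ b : GC_R q l, x = ((q : ℤ_[q]) ^ (k + 1)) • b) : x = 0 := by
  haveI := GC_fin (q := q) (l := l)
  have hne : Ideal.span {(q : ℤ_[q])} ≠ ⊤ := by
    rw [Ne, Ideal.span_singleton_eq_top]
    exact PadicInt.prime_p.not_isUnit
  have h6 : x ∈ ⨅ k : ℕ, (Ideal.span {(q : ℤ_[q])}) ^ k • (⊤ : Submodule ℤ_[q] (GC_R q l)) := by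
    refine (Submodule.mem_iInf _).2 fun k => ?_
    obtain ⟨b, hb⟩ := hx k
    rw [hb, pow_succ, mul_smul]
    exact Submodule.smul_mem_smul (Ideal.pow_mem_pow (Ideal.mem_span_singleton_self _) k) Submodule.mem_top
  rw [Ideal.iInf_pow_smul_eq_bot_of_isLocalRing _ hne] at h6
  exact (Submodule.mem_bot _).1 h6

/-- the units congruent to one -/
def GC_B (q l : ℕ) [Fact q.Prime] [Fact l.Prime] (k : ℕ) : Subgroup (Fl q l)ˣ where
  carrier := {x | ∃ b : GC_R q l, (x : Fl q l) = 1 + ((q : ℤ_[q]) ^ (k + 1)) • (b : Fl q l)}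
  one_mem' := ⟨0, by simp⟩
  mul_mem' := by
    rintro x y ⟨b, hb⟩ ⟨c, hc⟩
    refine ⟨b + c + ((q : ℤ_[q]) ^ (k + 1)) • (b * c), ?_⟩
    rw [Units.val_mul, hb, hc]
    push_cast
    simp only [Algebra.smul_def]
    ring
  inv_mem' := by
    rintro x ⟨b, hb⟩
    obtain ⟨c, hc⟩ := GC_inv (((q : ℤ_[q]) ^ k) • b)
    have e0 : (((1 + (q : ℤ_[q]) • (((q : ℤ_[q]) ^ k) • b)) * c : GC_R q l) : Fl q l) = 1 := by
      rw [hc]
      rfl
    have e1 : (x : Fl q l) * (c : Fl q l) = 1 := by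
      rw [hb, pow_succ', mul_smul]
      exact e0
    have e2 : ((x⁻¹ : (Fl q l)ˣ) : Fl q l) = c := Units.inv_eq_of_mul_eq_one_right e1
    refine ⟨-(c * b), ?_⟩
    rw [e2]
    have e3 : (1 + ((q : ℤ_[q]) ^ (k + 1)) • (b : Fl q l)) * (c : Fl q l) = 1 := by
      rw [← hb]
      exact e1
    push_cast
    simp only [Algebra.smul_def] at e3 ⊢
    linear_combination e3

theorem GC_memB {k : ℕ} {x : (Fl q l)ˣ} :
    x ∈ GC_B q l k ↔ ∃ b : GC_R q l, (x : Fl q l) = 1 + ((q : ℤ_[q]) ^ (k + 1)) • (b : Fl q l) := Iff.rfl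

theorem GC_sep (x : (Fl q l)ˣ) (hx : ∀ k, x ∈ GC_B q l k) : x = 1 := by
  obtain ⟨b, hb⟩ := hx 0
  have h1 := GC_zero (((q : ℤ_[q]) ^ (0 + 1)) • b) fun k => by
    obtain ⟨c, hc⟩ := hx k
    refine ⟨c, ?_⟩
    apply Subtype.ext
    have : ((q : ℤ_[q]) ^ (0 + 1)) • (b : Fl q l) = ((q : ℤ_[q]) ^ (k + 1)) • (c : Fl q l) :=
      add_left_cancel (hb.symm.trans hc)
    exact this
  apply Units.ext
  have h2 : ((((q : ℤ_[q]) ^ (0 + 1)) • b : GC_R q l) : Fl q l) = 0 := by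
    rw [h1]
    rfl
  rw [hb]
  have h3 : ((q : ℤ_[q]) ^ (0 + 1)) • (b : Fl q l) = 0 := h2
  rw [h3, add_zero]
  rfl

theorem GC_smul (z : ℤ_[q]) (x : Fl q l) : z • x = (z : ℚ_[q]) • x := by
  rw [← IsScalarTower.algebraMap_smul ℚ_[q] z x]
  rfl

theorem GC_q1 : ‖(q : ℚ_[q])‖ = ((q : ℝ))⁻¹ := by
  rw [Padic.norm_p]

/-- the elements of norm at most `‖q^N‖` -/
theorem GC_div (c : ℚ_[q]) (N : ℕ) (h : ‖c‖ ≤ ‖(q : ℚ_[q]) ^ N‖) : ∃ z : ℤ_[q], c = (q : ℚ_[q]) ^ N * (z : ℚ_[q]) := by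
  have hq0 : (q : ℚ_[q]) ≠ 0 := by exact_mod_cast (Fact.out : q.Prime).ne_zero
  have h0 : (q : ℚ_[q]) ^ N ≠ 0 := pow_ne_zero _ hq0
  have h1 : 0 < ‖(q : ℚ_[q]) ^ N‖ := norm_pos_iff.2 h0
  refine ⟨⟨c / (q : ℚ_[q]) ^ N, ?_⟩, ?_⟩
  · rw [norm_div]
    exact (div_le_one h1).2 h
  · change c = (q : ℚ_[q]) ^ N * (c / (q : ℚ_[q]) ^ N)
    rw [mul_div_cancel₀ _ h0]

/-- a power of `q` makes an element of `ℚ_q` integral -/
theorem GC_den (c : ℚ_[q]) : ∃ (e : ℕ) (z : ℤ_[q]), (q : ℚ_[q]) ^ e * c = (z : ℚ_[q]) := by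
  have hq1 : (1 : ℝ) < q := by exact_mod_cast (Fact.out : q.Prime).one_lt
  obtain ⟨e, he⟩ := pow_unbounded_of_one_lt ‖c‖ hq1
  refine ⟨e, ⟨(q : ℚ_[q]) ^ e * c, ?_⟩, rfl⟩
  rw [norm_mul, norm_pow, GC_q1, inv_pow]
  have h2 : (0 : ℝ) < (q : ℝ) ^ e := by positivity
  rw [inv_mul_le_iff₀ h2, mul_one]
  exact he.le

/-- a power of `q` makes an element of `Fl q l` integral -/
theorem GC_denF (x : Fl q l) : ∃ (e : ℕ) (b : GC_R q l), ((q : ℚ_[q]) ^ e) • x = (b : Fl q l) := by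
  obtain ⟨p, rfl⟩ := AdjoinRoot.mk_surjective x
  refine Polynomial.induction_on' p ?_ ?_
  · rintro p1 p2 ⟨e1, b1, h1⟩ ⟨e2, b2, h2⟩
    refine ⟨e1 + e2, ((q : ℤ_[q]) ^ e2) • b1 + ((q : ℤ_[q]) ^ e1) • b2, ?_⟩
    have c1 : (((((q : ℤ_[q]) ^ e2) • b1 + ((q : ℤ_[q]) ^ e1) • b2 : GC_R q l)) : Fl q l) =
      ((q : ℤ_[q]) ^ e2) • (b1 : Fl q l) + ((q : ℤ_[q]) ^ e1) • (b2 : Fl q l) := rfl
    rw [c1, GC_smul, GC_smul, ← h1, ← h2, map_add, smul_add, smul_smul, smul_smul]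
    push_cast
    rw [← pow_add, ← pow_add, add_comm e2 e1]
  · intro m a
    obtain ⟨e, z, hz⟩ := GC_den a
    refine ⟨e, z • (⟨AdjoinRoot.root (cyclotomic l ℚ_[q]), Algebra.subset_adjoin rfl⟩ : GC_R q l) ^ m, ?_⟩
    have c1 : ((z • (⟨AdjoinRoot.root (cyclotomic l ℚ_[q]), Algebra.subset_adjoin rfl⟩ : GC_R q l) ^ m : GC_R q l) : Fl q l) =
      z • (AdjoinRoot.root (cyclotomic l ℚ_[q])) ^ m := rfl
    rw [c1, GC_smul, ← hz, mul_smul, ← C_mul_X_pow_eq_monomial, map_mul, map_pow, AdjoinRoot.mk_X]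
    congr 1
    rw [Algebra.smul_def]
    rfl

end ring

section core
variable {q l : ℕ} [Fact q.Prime] [Fact l.Prime]

theorem GC_core {V : Type} [AddCommGroup V] [Module ℚ_[q] V]
    [Module (Fl q l) V] [IsScalarTower ℚ_[q] (Fl q l) V] (T : AddSubgroup V) (hT : Lat q T) (n : ℕ)
    (B : Module.Basis (Fin n) (Fl q l) V) (k : ℕ) :
    ∃ N : ℕ, ∀ g : V →ₗ[Fl q l] V, (∀ t ∈ T, ∃ t' ∈ T, g t - t = (q : ℚ_[q]) ^ N • t') →
      ∃ b : GC_R q l, LinearMap.det g = 1 + ((q : ℤ_[q]) ^ (k + 1)) • (b : Fl q l) := by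
  obtain ⟨m, b, hb⟩ := hT
  have hq1 : (1 : ℝ) < q := by exact_mod_cast (Fact.out : q.Prime).one_lt
  have hq0 : (q : ℚ_[q]) ≠ 0 := by exact_mod_cast (Fact.out : q.Prime).ne_zero
  have hvT : ∀ v : V, ∃ c : ℕ, (q : ℚ_[q]) ^ c • v ∈ T := by
    intro v
    obtain ⟨c, hc⟩ := pow_unbounded_of_one_lt (∑ j, ‖b.repr v j‖) hq1
    refine ⟨c, (hb _).2 fun j => ?_⟩
    rw [map_smul, Finsupp.smul_apply, smul_eq_mul, norm_mul, norm_pow, Padic.norm_p, inv_pow]
    have h1 : ‖b.repr v j‖ ≤ (q : ℝ) ^ c :=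
      (Finset.single_le_sum (f := fun j => ‖b.repr v j‖) (fun i _ => norm_nonneg _) (Finset.mem_univ j)).trans hc.le
    have h2 : (0 : ℝ) < (q : ℝ) ^ c := by positivity
    rw [inv_mul_le_iff₀ h2, mul_one]
    exact h1
  let D : MultilinearMap ℚ_[q] (fun _ : Fin n => V) (Fl q l) := B.det.toMultilinearMap.restrictScalars ℚ_[q]
  have hDdet : ∀ (g : V →ₗ[Fl q l] V) (t : Fin n → V), D (fun i => g (t i)) = LinearMap.det g * D t := fun g t =>
    B.det_comp g t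
  -- the values of `D` on `T`
  choose e be hbe using fun r : Fin n → Fin m => GC_denF (D (fun i => b (r i)))
  set E : ℕ := ∑ r, e r with hE
  have hDT : ∀ t : Fin n → V, (∀ i, t i ∈ T) → ∃ w : GC_R q l, ((q : ℚ_[q]) ^ E) • D t = (w : Fl q l) := by
    intro t ht
    have e0 : t = fun i => ∑ j, (b.repr (t i) j) • b j := by
      funext i
      exact (b.sum_repr (t i)).symm
    have hc : ∀ r : Fin n → Fin m, ‖∏ i, b.repr (t i) (r i)‖ ≤ 1 := by
      intro r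
      rw [norm_prod]
      exact Finset.prod_le_one (fun _ _ => norm_nonneg _) fun i _ => (hb _).1 (ht i) _
    let z : (Fin n → Fin m) → ℤ_[q] := fun r => ⟨∏ i, b.repr (t i) (r i), hc r⟩
    have hz : ∀ r, (z r : ℚ_[q]) = ∏ i, b.repr (t i) (r i) := fun r => rfl
    refine ⟨∑ r, ((q : ℤ_[q]) ^ (E - e r) * z r) • be r, ?_⟩
    have c1 : ((∑ r, ((q : ℤ_[q]) ^ (E - e r) * z r) • be r : GC_R q l) : Fl q l) =
        ∑ r, ((q : ℤ_[q]) ^ (E - e r) * z r) • (be r : Fl q l) := by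
      push_cast
      rfl
    rw [c1, e0, D.map_sum, Finset.smul_sum]
    refine Finset.sum_congr rfl fun r _ => ?_
    have her : e r ≤ E := Finset.single_le_sum (f := e) (fun _ _ => Nat.zero_le _) (Finset.mem_univ r)
    rw [D.map_smul_univ, GC_smul, ← hbe r, smul_smul, smul_smul]
    push_cast
    rw [hz]
    congr 1
    have h3 : (q : ℚ_[q]) ^ E = (q : ℚ_[q]) ^ (E - e r) * (q : ℚ_[q]) ^ e r := by
      rw [← pow_add, Nat.sub_add_cancel her]
    rw [h3]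
    ring
  -- the basis, scaled
  choose c hc using fun i => hvT (B i)
  set A : ℕ := ∑ i, c i with hA
  have hDB : D (fun i => (q : ℚ_[q]) ^ c i • B i) = ((q : ℚ_[q]) ^ A) • (1 : Fl q l) := by
    rw [D.map_smul_univ, Finset.prod_pow_eq_pow_sum]
    have : D (fun i => B i) = 1 := B.det_self
    rw [this]
  refine ⟨E + A + k + 1, fun g hg => ?_⟩
  choose t' ht' he using fun i => hg _ (hc i)
  set t : Fin n → V := fun i => (q : ℚ_[q]) ^ c i • B i with ht
  set N : ℕ := E + A + k + 1 with hN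
  have e1 : (fun i => g (t i)) = t + fun i => (q : ℚ_[q]) ^ N • t' i := by
    funext i
    rw [Pi.add_apply, ← he i]
    abel
  have e2 : LinearMap.det g * D t - D t = ∑ s ∈ Finset.univ.erase (Finset.univ : Finset (Fin n)),
      D (s.piecewise t (fun i => (q : ℚ_[q]) ^ N • t' i)) := by
    rw [← hDdet, e1, D.map_add_univ, ← Finset.add_sum_erase _ _ (Finset.mem_univ Finset.univ),
      Finset.piecewise_univ]
    ring
  have e3 : ∀ s ∈ Finset.univ.erase (Finset.univ : Finset (Fin n)), ∃ y : GC_R q l,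
      ((q : ℚ_[q]) ^ E) • D (s.piecewise t (fun i => (q : ℚ_[q]) ^ N • t' i)) = ((q : ℚ_[q]) ^ N) • (y : Fl q l) := by
    intro s hs
    have hs1 : s ≠ Finset.univ := (Finset.mem_erase.1 hs).1
    obtain ⟨i₀, hi₀⟩ : ∃ i, i ∉ s := by
      by_contra hcon
      push Not at hcon
      exact hs1 (Finset.eq_univ_iff_forall.2 hcon)
    let d : Fin n → ℚ_[q] := fun i => if i ∈ s then 1 else (q : ℚ_[q]) ^ N
    have e4 : s.piecewise t (fun i => (q : ℚ_[q]) ^ N • t' i) = fun i => d i • (s.piecewise t t') i := by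
      funext i
      by_cases hi : i ∈ s
      · simp [d, hi]
      · simp [d, hi]
    have hqn : ‖(q : ℚ_[q]) ^ N‖ ≤ 1 := by
      rw [norm_pow]
      refine pow_le_one₀ (norm_nonneg _) ?_
      rw [Padic.norm_p]
      exact inv_le_one_of_one_le₀ hq1.le
    have hcc : ‖∏ i ∈ Finset.univ.erase i₀, d i‖ ≤ 1 := by
      rw [norm_prod]
      refine Finset.prod_le_one (fun _ _ => norm_nonneg _) fun i _ => ?_
      by_cases hi : i ∈ s
      · simp [d, hi]
      · simp only [d, hi, if_false]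
        exact hqn
    have hm : ∀ i, (s.piecewise t t') i ∈ T := by
      intro i
      by_cases hi : i ∈ s
      · simp only [Finset.piecewise, hi, if_true]
        exact hc i
      · simp only [Finset.piecewise, hi, if_false]
        exact ht' i
    obtain ⟨w, hw⟩ := hDT _ hm
    let z : ℤ_[q] := ⟨∏ i ∈ Finset.univ.erase i₀, d i, hcc⟩
    have hz : (z : ℚ_[q]) = ∏ i ∈ Finset.univ.erase i₀, d i := rfl
    refine ⟨z • w, ?_⟩
    have c1 : ((z • w : GC_R q l) : Fl q l) = z • (w : Fl q l) := rfl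
    rw [c1, GC_smul, ← hw, e4, D.map_smul_univ, ← Finset.mul_prod_erase _ _ (Finset.mem_univ i₀), hz, smul_smul,
      smul_smul, smul_smul]
    have e5 : d i₀ = (q : ℚ_[q]) ^ N := by simp [d, hi₀]
    rw [e5]
    congr 1
    ring
  choose! y hy using e3
  refine ⟨∑ s ∈ Finset.univ.erase (Finset.univ : Finset (Fin n)), y s, ?_⟩
  have c1 : ((∑ s ∈ Finset.univ.erase (Finset.univ : Finset (Fin n)), y s : GC_R q l) : Fl q l) =
      ∑ s ∈ Finset.univ.erase (Finset.univ : Finset (Fin n)), (y s : Fl q l) := by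
    push_cast
    rfl
  have e6 : ((q : ℚ_[q]) ^ E) • (LinearMap.det g * D t - D t) =
      ((q : ℚ_[q]) ^ N) • ∑ s ∈ Finset.univ.erase (Finset.univ : Finset (Fin n)), (y s : Fl q l) := by
    rw [e2, Finset.smul_sum, Finset.smul_sum]
    exact Finset.sum_congr rfl hy
  rw [hDB] at e6
  have h0 : ((q : ℚ_[q]) ^ (E + A)) ≠ 0 := pow_ne_zero _ hq0
  have e7 : ((q : ℚ_[q]) ^ (E + A)) • (LinearMap.det g - 1) = ((q : ℚ_[q]) ^ (E + A)) • (((q : ℚ_[q]) ^ (k + 1)) •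
      ∑ s ∈ Finset.univ.erase (Finset.univ : Finset (Fin n)), (y s : Fl q l)) := by
    rw [smul_smul, ← pow_add, ← add_assoc, ← hN, ← e6, pow_add, mul_smul, mul_smul_comm, mul_one, ← smul_sub]
  have e8 := smul_right_injective _ h0 e7
  rw [c1, GC_smul]
  push_cast
  rw [← e8]
  ring

end core

theorem GC (hLM : LM_stmt) : GC_stmt := by
  intro q l _ _
  refine ⟨GC_B q l, GC_sep, ?_, ?_⟩
  · intro k
    refine ⟨k + 1, fun c x hc hx => ?_⟩
    obtain ⟨z, hz⟩ := GC_div (c - 1) (k + 1) hc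
    refine GC_memB.2 ⟨algebraMap ℤ_[q] _ z, ?_⟩
    rw [hx, eq_add_of_sub_eq' hz]
    have h1 : (fl (C (1 + (q : ℚ_[q]) ^ (k + 1) * (z : ℚ_[q]))) : Fl q l) =
      algebraMap ℚ_[q] (Fl q l) (1 + (q : ℚ_[q]) ^ (k + 1) * (z : ℚ_[q])) := rfl
    have h2 : ((algebraMap ℤ_[q] (GC_R q l) z : GC_R q l) : Fl q l) = algebraMap ℚ_[q] (Fl q l) (z : ℚ_[q]) := rfl
    rw [h1, h2, GC_smul, map_add, map_one, map_mul, Algebra.smul_def]
    push_cast
    rfl
  · intro V _ _ T Z n hT _ hfree hsum k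
    obtain ⟨v, b, hb⟩ := hfree
    obtain ⟨instM, instT, B, hB, hfl, hdet⟩ := hLM q l V Z n v b hb hsum
    obtain ⟨N, hN⟩ := GC_core T hT n B k
    refine ⟨N, fun g x hgZ hgT hx => ?_⟩
    have hcom : ∀ (p : ℚ_[q][X]) (w : V), g (aeval Z p w) = aeval Z p (g w) := by
      intro p w
      have h1 : Commute g (aeval Z p) := by
        have h2 : Commute g Z := hgZ
        refine Polynomial.induction_on' p ?_ ?_
        · intro p1 p2 h1 h2
          rw [map_add]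
          exact h1.add_right h2
        · intro m a
          rw [aeval_monomial]
          have h3 : Commute g (algebraMap ℚ_[q] (Module.End ℚ_[q] V) a) := (Algebra.commutes a g).symm
          exact h3.mul_right (h2.pow_right m)
      exact congrArg (fun f : Module.End ℚ_[q] V => f w) h1.eq
    let gF : V →ₗ[Fl q l] V :=
      { toFun := fun w => g w
        map_add' := fun x y => map_add _ _ _
        map_smul' := fun a x => by
          obtain ⟨p, rfl⟩ := AdjoinRoot.mk_surjective a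
          have h1 : (fl p : Fl q l) • x = aeval Z p x := hfl p x
          have h2 : (fl p : Fl q l) • (g x) = aeval Z p (g x) := hfl p _
          change g ((fl p : Fl q l) • x) = (fl p : Fl q l) • g x
          rw [h1, h2, hcom] }
    have h1 : gF.restrictScalars ℚ_[q] = g := by
      apply LinearMap.ext
      intro w
      rfl
    have h2 := (hdet gF (x : Fl q l)).1 (by rw [h1]; exact hx)
    obtain ⟨b, hb⟩ := hN gF hgT
    exact GC_memB.2 ⟨b, h2.trans hb⟩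

end

end Pool.Agent.TI
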